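import Pool.Agent.W603.GGL.Torus
import Pool.Agent.H159R3.GGL.Main
import Pool.Agent.H159R3.War.Main

/-!
Brody hyperbolicity and maps from complex tori for projective varieties given by few monomials that
are high powers, and for those given by forms of small Waring rank.
-/

set_option autoImplicit false

namespace Pool.Agent.W603.GGL

open MvPolynomial Topology

variable {n : ℕ}

/-- Every holomorphic map from every complex torus to `X` is constant; here `X` is the projective
variety in `P^n` with the equations `p = 0`, `p ∈ S`. -/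
def NoTorusMaps (S : Set (MvPolynomial (Fin (n + 1)) ℂ)) : Prop :=
  ∀ (g : ℕ) (L : AddSubgroup (Fin g → ℂ)),
    DiscreteTopology L →
    Submodule.span ℝ (L : Set (Fin g → ℂ)) = ⊤ →
    ∀ F : (Fin g → ℂ) → (Fin (n + 1) → ℂ),
      Differentiable ℂ F →
      (∀ z, F z ≠ 0) →
      (∀ z, ∀ p ∈ S, MvPolynomial.eval (F z) p = 0) →
      (∀ z, ∀ l ∈ L, ∃ c : ℂ, F (z + l) = c • F z) →
      ∀ z w, ∃ c : ℂ, F w = c • F z

/-- `X` is Brody hyperbolic: every entire curve in `X` is constant. -/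
def Brody (S : Set (MvPolynomial (Fin (n + 1)) ℂ)) : Prop :=
  ∀ f : ℂ → (Fin (n + 1) → ℂ),
    Differentiable ℂ f →
    (∀ z, f z ≠ 0) →
    (∀ z, ∀ p ∈ S, MvPolynomial.eval (f z) p = 0) →
    ∀ z w, ∃ c : ℂ, f w = c • f z

/-- `X` contains no nontrivial orbit `{[x_0 t^(b_0) : ... : x_n t^(b_n)]}` of a diagonal one-parameter
group. -/
def NoOrbits (S : Set (MvPolynomial (Fin (n + 1)) ℂ)) : Prop :=
  ∀ x : Fin (n + 1) → ℂ, ∀ b : Fin (n + 1) → ℤ,
    (∀ t : ℂ, t ≠ 0 → ∀ p ∈ S, MvPolynomial.eval (fun j => x j * t ^ b j) p = 0) →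
    ∀ j k, x j ≠ 0 → x k ≠ 0 → b j = b k

/-- `X` contains no line. -/
def NoLines (S : Set (MvPolynomial (Fin (n + 1)) ℂ)) : Prop :=
  ∀ x y : Fin (n + 1) → ℂ, LinearIndependent ℂ ![x, y] →
    ∃ p ∈ S, ∃ s t : ℂ, MvPolynomial.eval (s • x + t • y) p ≠ 0

theorem noTorus_of_brody {S : Set (MvPolynomial (Fin (n + 1)) ℂ)} (h : Brody S) :
    NoTorusMaps S := by
  intro g L _ _ F hF hF0 hFS _ z w
  have h1 := h (fun ζ : ℂ => F (z + ζ • (w - z))) (by
    apply hF.comp
    exact (differentiable_const _).add (differentiable_id.smul_const _)) (fun _ => hF0 _)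
    (fun _ => hFS _) 0 1
  obtain ⟨c, hc⟩ := h1
  refine ⟨c, ?_⟩
  simpa using hc

/-- a quasi-periodic pair of functions gives a torus map -/
theorem torus_map_const {S : Set (MvPolynomial (Fin (n + 1)) ℂ)} (h : NoTorusMaps S)
    (Φ : ℂ → ℂ → (Fin (n + 1) → ℂ)) (hd : Differentiable ℂ (fun z : ℂ => Φ (uu z) (vv z)))
    (hne : ∀ A B : ℂ, (A ≠ 0 ∨ B ≠ 0) → Φ A B ≠ 0)
    (hS : ∀ A B : ℂ, ∀ p ∈ S, eval (Φ A B) p = 0)
    (hq : ∀ e A B : ℂ, ∃ c : ℂ, Φ (e * A) (e * B) = c • Φ A B) (z w : ℂ) :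
    ∃ c : ℂ, Φ (uu w) (vv w) = c • Φ (uu z) (vv z) := by
  have h1 := h 1 Lat inferInstance Lat_span (fun z => Φ (uu (z 0)) (vv (z 0))) (by
    have h2 : Differentiable ℂ (fun z : Fin 1 → ℂ => z 0) := differentiable_apply 0
    exact hd.comp h2) (fun z => hne _ _ (uv_ne _)) (fun z => hS _ _) (by
    intro z l hl
    obtain ⟨e, he0, he⟩ := Lat_pers hl
    have h3 := he (z 0)
    simp only [Pi.add_apply]
    rw [h3.1, h3.2]
    exact hq _ _ _) (fun _ => z) (fun _ => w)
  exact h1

theorem orbit_closure {p : MvPolynomial (Fin (n + 1)) ℂ} (hp : ∃ d, p.IsHomogeneous d)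
    (x : Fin (n + 1) → ℂ) (b : Fin (n + 1) → ℤ)
    (h : ∀ t : ℂ, t ≠ 0 → eval (fun j => x j * t ^ b j) p = 0) (m M : ℤ)
    (hm : ∀ j, x j ≠ 0 → m ≤ b j) (hM : ∀ j, x j ≠ 0 → b j ≤ M) (A B : ℂ) :
    eval (fun j => x j * (A ^ (b j - m).toNat * B ^ (M - b j).toNat)) p = 0 := by
  have hc1 : ∀ B : ℂ, Continuous (fun A : ℂ =>
      eval (fun j => x j * (A ^ (b j - m).toNat * B ^ (M - b j).toNat)) p) := by
    intro B
    have : (fun A : ℂ => eval (fun j => x j * (A ^ (b j - m).toNat * B ^ (M - b j).toNat)) p)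
        = fun A => ∑ α ∈ p.support, p.coeff α *
          ∏ j, (x j * (A ^ (b j - m).toNat * B ^ (M - b j).toNat)) ^ α j := by
      funext A; rw [eval_eq']
    rw [this]
    fun_prop
  have hc2 : ∀ A : ℂ, Continuous (fun B : ℂ =>
      eval (fun j => x j * (A ^ (b j - m).toNat * B ^ (M - b j).toNat)) p) := by
    intro A
    have : (fun B : ℂ => eval (fun j => x j * (A ^ (b j - m).toNat * B ^ (M - b j).toNat)) p)
        = fun B => ∑ α ∈ p.support, p.coeff α *
          ∏ j, (x j * (A ^ (b j - m).toNat * B ^ (M - b j).toNat)) ^ α j := by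
      funext A; rw [eval_eq']
    rw [this]
    fun_prop
  have hdense : Dense {z : ℂ | z ≠ 0} := dense_compl_singleton 0
  have h0 : ∀ A B : ℂ, A ≠ 0 → B ≠ 0 →
      eval (fun j => x j * (A ^ (b j - m).toNat * B ^ (M - b j).toNat)) p = 0 := by
    intro A B hA hB
    obtain ⟨d, hd⟩ := hp
    have e : (fun j => x j * (A ^ (b j - m).toNat * B ^ (M - b j).toNat)) =
        (A ^ (-m) * B ^ M) • (fun j => x j * (A / B) ^ b j) := by
      funext j
      rw [Pi.smul_apply, smul_eq_mul]
      by_cases hx : x j = 0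
      · rw [hx]; ring
      · have h1 : (A ^ (b j - m).toNat : ℂ) = A ^ (b j) * A ^ (-m) := by
          rw [← zpow_add₀ hA, ← zpow_natCast, Int.toNat_of_nonneg (by linarith [hm j hx])]
          congr 1
        have h2 : (B ^ (M - b j).toNat : ℂ) = B ^ M * (B ^ b j)⁻¹ := by
          rw [← zpow_neg, ← zpow_add₀ hB, ← zpow_natCast,
            Int.toNat_of_nonneg (by linarith [hM j hx])]
          congr 1
        rw [h1, h2, div_zpow]
        field_simp
    rw [e, Pool.Agent.H159R3.War.eval_smul_hom hd, h (A / B) (div_ne_zero hA hB), mul_zero]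
  have h1 : ∀ A B : ℂ, B ≠ 0 →
      eval (fun j => x j * (A ^ (b j - m).toNat * B ^ (M - b j).toNat)) p = 0 := by
    intro A B hB
    have := (hc1 B).ext_on hdense continuous_const (fun A hA => h0 A B hA hB)
    exact congrFun this A
  have := (hc2 A).ext_on hdense continuous_const (fun B hB => h1 A B hB)
  exact congrFun this B

theorem noOrbits_of_noTorus {S : Set (MvPolynomial (Fin (n + 1)) ℂ)}
    (hS : ∀ p ∈ S, ∃ d : ℕ, p.IsHomogeneous d) (h : NoTorusMaps S) : NoOrbits S := by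
  classical
  intro x b hx j k hj hk
  by_contra hjk
  -- extreme weights
  set J : Finset (Fin (n + 1)) := Finset.univ.filter (fun l => x l ≠ 0) with hJ
  have hjJ : j ∈ J := by simp [hJ, hj]
  have hkJ : k ∈ J := by simp [hJ, hk]
  obtain ⟨l1, hl1, hmin⟩ := J.exists_min_image b ⟨j, hjJ⟩
  obtain ⟨l2, hl2, hmax⟩ := J.exists_max_image b ⟨j, hjJ⟩
  have hl1' : x l1 ≠ 0 := by simpa [hJ] using hl1
  have hl2' : x l2 ≠ 0 := by simpa [hJ] using hl2
  have hm : ∀ l, x l ≠ 0 → b l1 ≤ b l := fun l hl => hmin l (by simp [hJ, hl])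
  have hM : ∀ l, x l ≠ 0 → b l ≤ b l2 := fun l hl => hmax l (by simp [hJ, hl])
  have hlt : b l1 < b l2 := by
    rcases lt_or_gt_of_ne hjk with hlt | hlt
    · exact lt_of_le_of_lt (hm j hj) (lt_of_lt_of_le hlt (hM k hk))
    · exact lt_of_le_of_lt (hm k hk) (lt_of_lt_of_le hlt (hM j hj))
  let Φ : ℂ → ℂ → (Fin (n + 1) → ℂ) := fun A B l =>
    x l * (A ^ (b l - b l1).toNat * B ^ (b l2 - b l).toNat)
  have hΦ := torus_map_const h Φ (by
      rw [differentiable_pi]
      intro l
      exact (((uu_diff.pow _).mul (vv_diff.pow _))).const_mul _)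
    (by
      intro A B hAB h0
      rcases hAB with hA | hB
      · have h1 := congrFun h0 l2
        simp only [Φ, sub_self, Int.toNat_zero, pow_zero, mul_one, Pi.zero_apply, mul_eq_zero,
          pow_eq_zero_iff', ne_eq] at h1
        rcases h1 with h1 | h1
        · exact hl2' h1
        · exact hA h1.1
      · have h1 := congrFun h0 l1
        simp only [Φ, sub_self, Int.toNat_zero, pow_zero, one_mul, Pi.zero_apply, mul_eq_zero,
          pow_eq_zero_iff', ne_eq] at h1
        rcases h1 with h1 | h1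
        · exact hl1' h1
        · exact hB h1.1)
    (fun A B p hp => orbit_closure (hS p hp) x b (fun t ht => hx t ht p hp) _ _ hm hM A B)
    (by
      intro e A B
      refine ⟨e ^ (b l2 - b l1).toNat, ?_⟩
      funext l
      simp only [Φ, Pi.smul_apply, smul_eq_mul]
      by_cases hl : x l = 0
      · rw [hl]; ring
      · have e1 : (b l2 - b l1).toNat = (b l - b l1).toNat + (b l2 - b l).toNat := by
          have := hm l hl
          have := hM l hl
          omega
        rw [e1, pow_add, mul_pow, mul_pow]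
        ring) z0 0
  obtain ⟨c, hc⟩ := hΦ
  have h1 := congrFun hc l2
  have hu0 : uu z0 = 0 := by unfold uu; rw [th_z0, mul_zero]
  have hu1 : uu 0 ≠ 0 := mul_ne_zero th_zero_ne th_zero_ne
  have hne : (b l2 - b l1).toNat ≠ 0 := by omega
  simp only [Φ, Pi.smul_apply, smul_eq_mul, sub_self, Int.toNat_zero, pow_zero, mul_one, hu0] at h1
  rw [zero_pow hne, mul_zero, mul_zero] at h1
  exact mul_ne_zero hl2' (pow_ne_zero _ hu1) h1

theorem noLines_of_noTorus {S : Set (MvPolynomial (Fin (n + 1)) ℂ)} (h : NoTorusMaps S) :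
    NoLines S := by
  intro x y hxy
  by_contra hcon
  push Not at hcon
  obtain ⟨c, hc⟩ := torus_map_const h (fun A B => A • x + B • y) (by
      exact (uu_diff.smul_const x).add (vv_diff.smul_const y))
    (by
      intro A B hAB h0
      have h1 := LinearIndependent.pair_iff.mp hxy A B h0
      rcases hAB with hA | hB
      · exact hA h1.1
      · exact hB h1.2)
    (fun A B p hp => hcon p hp A B)
    (by
      intro e A B
      refine ⟨e, ?_⟩
      rw [smul_add, smul_smul, smul_smul]) z0 0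
  have hu0 : uu z0 = 0 := by unfold uu; rw [th_z0, mul_zero]
  have hu1 : uu 0 ≠ 0 := mul_ne_zero th_zero_ne th_zero_ne
  rw [hu0, zero_smul, zero_add, smul_smul] at hc
  have h1 := LinearIndependent.pair_iff.mp hxy (uu 0) (vv 0 - c * vv z0) (by
    rw [sub_smul, ← hc]; abel_nf)
  exact hu1 h1.1

/-- a nonconstant entire curve in a variety given by few monomials that are high powers forces a
nontrivial orbit of a diagonal one-parameter group -/
theorem brody_of_noOrbits {S : Set (MvPolynomial (Fin (n + 1)) ℂ)}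
    (hS : ∀ p ∈ S, Pool.Agent.H159R3.GGL.PowerSparse p) (h : NoOrbits S) : Brody S := by
  intro f hf hf0 hfS z w
  by_contra hcon
  push Not at hcon
  obtain ⟨z0, b, j, k, hj, hk, hjk, -, hv⟩ := Pool.Agent.H159R3.GGL.curve
    (ι := S) (fun p => (p : MvPolynomial (Fin (n + 1)) ℂ)) (fun p => hS p p.2) f
    ⟨hf, fun z => ⟨hf0 z, fun p => hfS z p p.2⟩, w, z, hcon⟩ 1 0 (by simp)
  refine hjk (h (f z0) b (fun t ht p hp => ?_) j k hj hk)
  have h1 := Pool.Agent.H159R3.BLV.eval_laurent_zero (RingHom.id ℂ) p (f z0) b t ht (fun v => by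
    have h2 := hv ⟨p, hp⟩ v
    rw [Pool.Agent.H159R3.GGL.eval_sub'] at h2
    exact h2)
  rwa [MvPolynomial.eval₂_id] at h1

/-- a nonconstant entire curve in a variety given by forms of small Waring rank forces a line -/
theorem brody_of_noLines {S : Set (MvPolynomial (Fin (n + 1)) ℂ)}
    (hS : ∀ p ∈ S, Pool.Agent.H159R3.War.SmallWaring p) (h : NoLines S) : Brody S := by
  intro f hf hf0 hfS z w
  by_contra hcon
  push Not at hcon
  obtain ⟨q, hq, hl⟩ := Pool.Agent.H159R3.War.curve_on_line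
    (ι := S) (fun p => (p : MvPolynomial (Fin (n + 1)) ℂ)) (fun p => hS p p.2) (f := f)
    ⟨hf, fun z => ⟨hf0 z, fun p => hfS z p p.2⟩, w, z, hcon⟩ 0
  obtain ⟨p, hp, s, t, hst⟩ := h (f 0) q hq
  exact hst (hl ⟨p, hp⟩ s t)

end Pool.Agent.W603.GGL
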