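import Mathlib

/-!
A nonconstant holomorphic map from a complex torus of dimension one to the projective line, given
by entire functions without common zeros.
-/

set_option autoImplicit false

namespace Pool.Agent.W603.GGL

open Complex Topology Filter

/-- the theta function of the square lattice -/
noncomputable def th (z : ℂ) : ℂ := jacobiTheta₂ z I

theorem I_im_pos : 0 < I.im := by simp

theorem th_diff : Differentiable ℂ th := fun z => differentiableAt_jacobiTheta₂_fst z I_im_pos

theorem th_one (z : ℂ) : th (z + 1) = th z := jacobiTheta₂_add_left z I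

theorem th_I (z : ℂ) : th (z + I) = exp (-Real.pi * I * (I + 2 * z)) * th z :=
  jacobiTheta₂_add_left' z I

theorem th_neg (z : ℂ) : th (-z) = th z := jacobiTheta₂_neg_left z I

theorem th_zero_ne : th 0 ≠ 0 := by
  have h := hasSum_jacobiTheta₂_term 0 (τ := I) I_im_pos
  have hre := (Complex.hasSum_iff _ _).1 h
  have hterm : ∀ n : ℤ, (jacobiTheta₂_term n 0 I).re = Real.exp (-Real.pi * n ^ 2) := by
    intro n
    have e : 2 * Real.pi * I * n * 0 + Real.pi * I * n ^ 2 * I = ((-Real.pi * n ^ 2 : ℝ) : ℂ) := by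
      push_cast
      linear_combination (Real.pi * (n:ℂ) ^ 2) * I_mul_I
    rw [jacobiTheta₂_term, e, Complex.exp_ofReal_re]
  have h1 : (1:ℝ) ≤ (jacobiTheta₂ 0 I).re := by
    have h2 := le_hasSum hre.1 0 (fun n _ => by rw [hterm]; positivity)
    rw [hterm] at h2
    simpa using h2
  intro h0
  have h0' : jacobiTheta₂ 0 I = 0 := h0
  rw [h0'] at h1
  simp at h1
  linarith

/-- the zero of the theta function -/
noncomputable def z0 : ℂ := (1 + I) / 2

theorem th_z0 : th z0 = 0 := by
  have h1 : th z0 = th ((1 - I) / 2) := by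
    rw [← th_neg, ← th_one]
    congr 1
    unfold z0
    ring
  have h2 : th z0 = - th ((1 - I) / 2) := by
    have e : z0 = (1 - I) / 2 + I := by unfold z0; ring
    rw [e, th_I]
    have e2 : -Real.pi * I * (I + 2 * ((1 - I) / 2)) = -(Real.pi * I) := by ring
    rw [e2, Complex.exp_neg, Complex.exp_pi_mul_I]
    norm_num
  have h3 : th z0 + th z0 = 0 := by
    nth_rewrite 1 [h1]
    rw [h2]
    ring
  have h4 : (2 : ℂ) * th z0 = 0 := by rw [two_mul]; exact h3
  exact (mul_eq_zero.mp h4).resolve_left two_ne_zero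

theorem zeros_countable : {z : ℂ | th z = 0}.Countable := by
  have h1 : ∀ z : ℂ, ∀ᶠ w in 𝓝[≠] z, th w ≠ 0 := by
    intro z
    rcases AnalyticOnNhd.eqOn_zero_or_eventually_ne_zero_of_preconnected
      (f := th) (U := Set.univ) (fun z _ => th_diff.analyticAt z) isPreconnected_univ with h | h
    · exact absurd (h (Set.mem_univ 0)) th_zero_ne
    · have h2 := (mem_codiscreteWithin_iff_forall_mem_nhdsNE.1 h) z (Set.mem_univ _)
      filter_upwards [h2] with z hz
      rcases hz with hz | hz
      · exact hz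
      · exact absurd (Set.mem_univ z) hz
  have hd : DiscreteTopology {z : ℂ | th z = 0} := by
    rw [discreteTopology_subtype_iff]
    intro z _
    have h2 : ∀ᶠ w in 𝓝[≠] z ⊓ 𝓟 {z : ℂ | th z = 0}, False := by
      rw [Filter.eventually_inf_principal]
      filter_upwards [h1 z] with w hw hw0
      exact hw hw0
    exact Filter.eventually_false_iff_eq_bot.1 h2
  have := (TopologicalSpace.separableSpace_iff_countable (α := {z : ℂ | th z = 0})).1 inferInstance
  exact Set.countable_coe_iff.1 this

/-- a point outside of the differences of zeros -/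
theorem exists_b : ∃ b : ℂ, ∀ z, th z = 0 → th (z - b) ≠ 0 ∧ th (z + b) ≠ 0 := by
  have h1 : (Set.image2 (fun z w : ℂ => z - w) {z : ℂ | th z = 0} {z : ℂ | th z = 0}).Countable :=
    zeros_countable.image2 zeros_countable _
  obtain ⟨b, hb⟩ : ∃ b : ℂ, b ∉ Set.image2 (fun z w : ℂ => z - w) {z : ℂ | th z = 0}
      {z : ℂ | th z = 0} := by
    by_contra hcon
    push Not at hcon
    have h2 : (Set.univ : Set ℂ).Countable := h1.mono (fun b _ => hcon b)
    exact not_countable_complex h2
  refine ⟨b, fun z hz => ⟨fun h => hb ⟨z, hz, z - b, h, by ring⟩,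
    fun h => hb ⟨z + b, h, z, hz, by ring⟩⟩⟩

/-- the shift parameter -/
noncomputable def bb : ℂ := exists_b.choose

theorem bb_spec : ∀ z, th z = 0 → th (z - bb) ≠ 0 ∧ th (z + bb) ≠ 0 := exists_b.choose_spec

/-- the first coordinate of the map to the projective line -/
noncomputable def uu (z : ℂ) : ℂ := th z * th z

/-- the second coordinate of the map to the projective line -/
noncomputable def vv (z : ℂ) : ℂ := th (z - bb) * th (z + bb)

theorem uu_diff : Differentiable ℂ uu := th_diff.mul th_diff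

theorem vv_diff : Differentiable ℂ vv :=
  (th_diff.comp (differentiable_id.sub_const bb)).mul (th_diff.comp (differentiable_id.add_const bb))

theorem uv_ne (z : ℂ) : uu z ≠ 0 ∨ vv z ≠ 0 := by
  by_cases h : th z = 0
  · right
    exact mul_ne_zero (bb_spec z h).1 (bb_spec z h).2
  · left
    exact mul_ne_zero h h

/-- the factor of automorphy -/
noncomputable def ff (z : ℂ) : ℂ := exp (-Real.pi * I * (2 * I + 4 * z))

theorem uu_one (z : ℂ) : uu (z + 1) = uu z := by
  unfold uu; rw [th_one]

theorem vv_one (z : ℂ) : vv (z + 1) = vv z := by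
  unfold vv
  have e1 : z + 1 - bb = (z - bb) + 1 := by ring
  have e2 : z + 1 + bb = (z + bb) + 1 := by ring
  rw [e1, e2, th_one, th_one]

theorem uu_I (z : ℂ) : uu (z + I) = ff z * uu z := by
  unfold uu ff
  rw [th_I]
  have : exp (-Real.pi * I * (2 * I + 4 * z)) = exp (-Real.pi * I * (I + 2 * z)) *
      exp (-Real.pi * I * (I + 2 * z)) := by
    rw [← Complex.exp_add]; congr 1; ring
  rw [this]
  ring

theorem vv_I (z : ℂ) : vv (z + I) = ff z * vv z := by
  unfold vv ff
  have e1 : z + I - bb = (z - bb) + I := by ring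
  have e2 : z + I + bb = (z + bb) + I := by ring
  rw [e1, e2, th_I, th_I]
  have : exp (-Real.pi * I * (2 * I + 4 * z)) = exp (-Real.pi * I * (I + 2 * (z - bb))) *
      exp (-Real.pi * I * (I + 2 * (z + bb))) := by
    rw [← Complex.exp_add]; congr 1; ring
  rw [this]
  ring

/-- the periods of the map -/
noncomputable def pers : AddSubgroup ℂ where
  carrier := {l | ∃ e : ℂ → ℂ, (∀ z, e z ≠ 0) ∧ ∀ z, uu (z + l) = e z * uu z ∧ vv (z + l) = e z * vv z}
  zero_mem' := ⟨fun _ => 1, fun _ => one_ne_zero, fun z => by simp⟩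
  add_mem' := by
    rintro a b ⟨e, he0, he⟩ ⟨e', he0', he'⟩
    refine ⟨fun z => e' (z + a) * e z, fun z => mul_ne_zero (he0' _) (he0 _), fun z => ?_⟩
    rw [← add_assoc]
    constructor
    · rw [(he' (z + a)).1, (he z).1, mul_assoc]
    · rw [(he' (z + a)).2, (he z).2, mul_assoc]
  neg_mem' := by
    rintro a ⟨e, he0, he⟩
    refine ⟨fun z => (e (z + -a))⁻¹, fun z => inv_ne_zero (he0 _), fun z => ?_⟩
    have h := he (z + -a)
    have e1 : z + -a + a = z := by ring
    rw [e1] at h
    constructor
    · rw [h.1, ← mul_assoc, inv_mul_cancel₀ (he0 _), one_mul]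
    · rw [h.2, ← mul_assoc, inv_mul_cancel₀ (he0 _), one_mul]

theorem one_mem_pers : (1 : ℂ) ∈ pers :=
  ⟨fun _ => 1, fun _ => one_ne_zero, fun z => by rw [uu_one, vv_one]; simp⟩

theorem I_mem_pers : I ∈ pers :=
  ⟨ff, fun z => Complex.exp_ne_zero _, fun z => ⟨uu_I z, vv_I z⟩⟩

/-- the basis of the lattice -/
noncomputable def bas : Module.Basis (Fin 2) ℝ (Fin 1 → ℂ) :=
  Complex.basisOneI.map (LinearEquiv.funUnique (Fin 1) ℝ ℂ).symm

/-- the lattice -/
noncomputable def Lat : AddSubgroup (Fin 1 → ℂ) := (Submodule.span ℤ (Set.range bas)).toAddSubgroup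

instance : DiscreteTopology Lat :=
  inferInstanceAs (DiscreteTopology (Submodule.span ℤ (Set.range bas)).toAddSubgroup)

theorem Lat_span : Submodule.span ℝ (Lat : Set (Fin 1 → ℂ)) = ⊤ := by
  rw [eq_top_iff, ← bas.span_eq]
  exact Submodule.span_mono Submodule.subset_span

theorem Lat_pers {l : Fin 1 → ℂ} (hl : l ∈ Lat) : l 0 ∈ pers := by
  have h1 : Submodule.span ℤ (Set.range bas) ≤
      (pers.comap (Pi.evalAddMonoidHom (fun _ : Fin 1 => ℂ) 0)).toIntSubmodule := by
    rw [Submodule.span_le]
    rintro x ⟨i, rfl⟩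
    have e : bas i 0 = Complex.basisOneI i := rfl
    change bas i 0 ∈ pers
    rw [e, Complex.coe_basisOneI]
    fin_cases i
    · exact one_mem_pers
    · exact I_mem_pers
  exact h1 hl

end Pool.Agent.W603.GGL
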